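import Pool.Agent.ISO.StmtsD

/-!
# Row DNU: Nullstellensatz for the annihilator
-/

set_option autoImplicit false

namespace Pool.Agent.ISO.H51

open MvPolynomial Pool.Agent.Helper32_OMP Pool.Agent.ISO

/-- **DNU** -/
theorem dnu (h1 : DimStmt) (h2 : DrkStmt) : DnuStmt := by
  intro σ ι _ _ f T hT P hP
  obtain ⟨d1, _, _, d4, d5⟩ := h1 ℂ σ ι f
  set I : Ideal (MvPolynomial σ ℂ) :=
    { carrier := {r | Kil f r}
      add_mem' := fun {r r'} hr hr' => d4 r r' hr hr'
      zero_mem' := fun v => by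
        simp only [zero_mul]
        exact d1
      smul_mem' := fun c r hr => d5 c r hr } with hI
  have hmem : P ∈ vanishingIdeal ℂ (zeroLocus ℂ I) := by
    rw [mem_vanishingIdeal_iff]
    intro z hz
    rw [mem_zeroLocus_iff] at hz
    rw [aeval_eq_eval]
    by_cases hzT : z ∈ T
    · exact hP z hzT
    · exfalso
      obtain ⟨r, hr1, hr2⟩ := h2 σ ι f z (hT z hzT)
      have h3 := hz r hr1
      rw [aeval_eq_eval] at h3
      have h4 : eval z r = 0 := h3
      rw [hr2] at h4
      exact one_ne_zero h4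
  rw [vanishingIdeal_zeroLocus_eq_radical] at hmem
  obtain ⟨N, hN⟩ := hmem
  exact ⟨N, hN⟩

end Pool.Agent.ISO.H51
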