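import Pool.Agent.ISO.StmtsR

/-!
# Row TRP: transport of local functional equations
-/

set_option autoImplicit false

namespace Pool.Agent.ISO.R.H51

open Finset Pool.Agent.Helper6_Mono Pool.Agent.Helper32_OMP Pool.Agent.ISO Pool.Agent.ISO.R

/-- the value of a polynomial of degree `≤ d` -/
theorem eval_eq {A : Type} [CommRing A] (q : Polynomial A) {d : ℕ} (h : q.natDegree ≤ d) (x : A) :
    q.eval x = ∑ k : Fin (d + 1), q.coeff k * x ^ (k : ℕ) := by
  rw [Polynomial.eval_eq_sum_range' (Nat.lt_succ_of_le h), Finset.sum_range]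

/-- the polynomial with given coefficients -/
noncomputable def mkp {A : Type} [CommRing A] (d : ℕ) (a : Fin (d + 1) → A) : Polynomial A :=
  ∑ k : Fin (d + 1), Polynomial.monomial (k : ℕ) (a k)

theorem mkp_natDegree {A : Type} [CommRing A] (d : ℕ) (a : Fin (d + 1) → A) :
    (mkp d a).natDegree ≤ d := by
  unfold mkp
  apply Polynomial.natDegree_sum_le_of_forall_le
  intro k _
  exact (Polynomial.natDegree_monomial_le _).trans (by omega)

theorem mkp_eval {A : Type} [CommRing A] (d : ℕ) (a : Fin (d + 1) → A) (x : A) :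
    (mkp d a).eval x = ∑ k : Fin (d + 1), a k * x ^ (k : ℕ) := by
  unfold mkp
  rw [Polynomial.eval_finsetSum]
  simp only [Polynomial.eval_monomial]

/-- **TRP** -/
theorem trp (h1 : ApnStmt) (h2 : KrvStmt) (h3 : ExtStmt) : TrpStmt := by
  classical
  intro σ _ f f1 p b hA hL
  obtain ⟨W, d, hc⟩ := h1 σ f f1 p b hA hL
  set D : ℕ := d + W + b.natDegree with hD
  set Q : ({w // w ∈ Wd σ W} × Fin (d + 1)) → Fin (D + 1) → MvPolynomial σ ℂ :=
    fun wk n => ((n : ℕ) : MvPolynomial σ ℂ) ^ (wk.2 : ℕ) * dWord wk.1.1 (f1 ^ ((n : ℕ) + 1))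
    with hQ
  set τ : Fin (D + 1) → MvPolynomial σ ℂ :=
    fun n => MvPolynomial.C (b.eval ((n : ℕ) : ℂ)) * f1 ^ (n : ℕ) with hτ
  have key : ∀ (a : {w // w ∈ Wd σ W} × Fin (d + 1) → MvPolynomial σ ℂ) (j : Fin (D + 1)),
      ∑ i, a i * Q i j = ∑ w : {w // w ∈ Wd σ W},
        (∑ k : Fin (d + 1), a (w, k) * ((j : ℕ) : MvPolynomial σ ℂ) ^ (k : ℕ)) *
          dWord w.1 (f1 ^ ((j : ℕ) + 1)) := by
    intro a j
    rw [Fintype.sum_prod_type]
    apply Finset.sum_congr rfl
    intro w _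
    rw [Finset.sum_mul]
    apply Finset.sum_congr rfl
    intro k _
    simp only [hQ]
    ring
  obtain ⟨h, a, hh, ha⟩ := h2 σ ({w // w ∈ Wd σ W} × Fin (d + 1)) (Fin (D + 1)) Q τ (by
    intro E
    obtain ⟨c, hcd, hcE⟩ := hc E
    refine ⟨fun wk => (c wk.1.1).coeff wk.2, fun j => ?_⟩
    have e := hcE (j : ℕ)
    have e2 : ∑ i, (fun wk : {w // w ∈ Wd σ W} × Fin (d + 1) => (c wk.1.1).coeff wk.2) i * Q i j =
        ∑ w ∈ Wd σ W, (c w).eval ((j : ℕ) : MvPolynomial σ ℂ) *
          dWord w (f1 ^ ((j : ℕ) + 1)) := by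
      rw [key, ← Finset.sum_coe_sort (Wd σ W)]
      apply Finset.sum_congr rfl
      intro w _
      rw [eval_eq (c w.1) (hcd w.1)]
    rw [e2]
    exact e)
  set c' : List σ → Polynomial (MvPolynomial σ ℂ) := fun w =>
    if hw : w ∈ Wd σ W then mkp d (fun k => a (⟨w, hw⟩, k)) else 0 with hc'
  have hdeg : ∀ w, (c' w).natDegree ≤ d := by
    intro w
    simp only [hc']
    split_ifs with hw
    · exact mkp_natDegree _ _
    · simp
  have heq := h3 σ f1 h b W d c' hdeg (by
    intro n hn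
    have e := ha ⟨n, by omega⟩
    rw [key] at e
    have e3 : MvPolynomial.C (b.eval (n : ℂ)) * h * f1 ^ n =
        h * τ ⟨n, by omega⟩ := by
      simp only [hτ]
      ring
    rw [e3, e, ← Finset.sum_coe_sort (Wd σ W)]
    apply Finset.sum_congr rfl
    intro w _
    have e4 : c' w.1 = mkp d (fun k => a (w, k)) := by
      simp only [hc']
      rw [dif_pos w.2]
    rw [e4, mkp_eval])
  refine ⟨h, ?_, (Wd σ W).toList.map (fun w => (c' w, w)), ?_⟩
  · rw [MvPolynomial.eval_zero]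
    exact hh
  · intro n
    rw [heq n, List.map_map]
    rw [← Finset.sum_map_toList]
    rfl

end Pool.Agent.ISO.R.H51
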